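import Pool.Agent.H67.AT.Targets

/-!
# RTU: the expected load of the children is at most the expected number of uses
-/

set_option autoImplicit false

open Finset PowerSeries Pool.Agent.H67.AT

namespace Pool.Agent.H50.AT

section nn

variable {X : Type} [Fintype X]

theorem mul_nn {A B : Matrix X X ℝ} (hA : ∀ x z, 0 ≤ A x z) (hB : ∀ x z, 0 ≤ B x z) (x z : X) :
    0 ≤ (A * B) x z := by
  rw [Matrix.mul_apply]
  exact sum_nonneg fun i _ => mul_nonneg (hA _ _) (hB _ _)

variable [DecidableEq X]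

theorem pow_nn {A : Matrix X X ℝ} (hA : ∀ x z, 0 ≤ A x z) (n : ℕ) : ∀ x z, 0 ≤ (A ^ n) x z := by
  induction n with
  | zero =>
    intro x z
    rw [pow_zero, Matrix.one_apply]
    split_ifs <;> norm_num
  | succ n ih =>
    intro x z
    rw [pow_succ]
    exact mul_nn ih hA x z

variable {E : Type} [Fintype E]

omit [Fintype X] in
theorem P_nn {Y : Type} (G : Net X E Y) (x z : X) : 0 ≤ G.P x z := by
  unfold Net.P
  rw [Matrix.of_apply]
  refine sum_nonneg fun e _ => ?_
  split_ifs
  · exact G.nonneg e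
  · exact le_rfl

omit [Fintype X] in
theorem Mm_nn {Y : Type} [DecidableEq Y] (G : Net X E Y) (y : Y) (x z : X) :
    0 ≤ Mm G y x z := by
  unfold Mm
  rw [Matrix.of_apply]
  refine sum_nonneg fun e _ => ?_
  split_ifs
  · exact G.nonneg e
  · exact le_rfl

theorem usk_nn {P M : Matrix X X ℝ} (hP : ∀ x z, 0 ≤ P x z) (hM : ∀ x z, 0 ≤ M x z) (h : ℕ)
    (x z : X) : 0 ≤ usk P M h x z := by
  unfold usk
  rw [Matrix.sum_apply]
  exact sum_nonneg fun i _ => mul_nn (mul_nn (pow_nn hP _) hM) (pow_nn hP _) x z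

theorem uses_nn {Y : Type} [DecidableEq Y] (G : Net X E Y) (h : ℕ) (x x' : X) (y : Y) :
    0 ≤ uses G.P (Mm G) h x x' y := by
  unfold uses
  exact div_nonneg (usk_nn (P_nn G) (Mm_nn G y) h x x') (pow_nn (P_nn G) h x x')

theorem mu_nn {Y : Type} [DecidableEq E] [Fintype Y] [DecidableEq Y] (G : Net X E Y) (k l : ℕ)
    (x x' : X) (s : Fin (k + 1) → X) : 0 ≤ mu G k l x x' s := by
  unfold mu
  split_ifs
  · refine div_nonneg ?_ (pow_nn (P_nn G) _ x x')
    unfold skw
    exact prod_nonneg fun i _ => pow_nn (P_nn G) _ _ _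
  · exact le_rfl

end nn

theorem pf_RTU (hUSU : T_USU) (hMU1 : T_MU1) : T_RTU := by
  have _ := hMU1
  intro X E Y _ _ _ _ _ _ G k good β l x x' y hβ
  have hr0 : ∀ l x x', 0 ≤ rho G k good β l x x' y := by
    intro l x x'
    unfold rho
    split_ifs
    · exact uses_nn G _ x x' y
    · exact le_rfl
  have hr1 : ∀ l x x', rho G k good β l x x' y ≤ uses G.P (Mm G) (k ^ l) x x' y := by
    intro l x x'
    unfold rho
    split_ifs
    · exact le_rfl
    · exact uses_nn G _ x x' y
  refine ⟨hr0 l x x', hr1 l x x', ?_, ?_, ?_⟩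
  · cases l with
    | zero => exact uses_nn G _ x x' y
    | succ l =>
      exact sum_nonneg fun s _ => mul_nonneg (mu_nn G k l x x' s)
        (sum_nonneg fun i _ => hr0 l _ _)
  · intro hpos
    cases l with
    | zero =>
      rw [pow_zero]
      exact le_rfl
    | succ l =>
      rw [← hUSU X E Y G k l x x' y hpos]
      exact sum_le_sum fun s _ => mul_le_mul_of_nonneg_left
        (sum_le_sum fun i _ => hr1 l _ _) (mu_nn G k l x x' s)
  · intro hg
    by_cases hb : β ≤ uses G.P (Mm G) (k ^ l) x x' y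
    · have h1 : rho G k good β l x x' y = uses G.P (Mm G) (k ^ l) x x' y := by
        unfold rho
        rw [if_pos ⟨hg, hb⟩]
      rw [h1]
      linarith
    · have h1 := hr0 l x x'
      rw [not_le] at hb
      linarith

end Pool.Agent.H50.AT
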