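import Pool.Agent.H67.AT.Targets
import Pool.Agent.H50.AT.RTU

/-!
# RTG: the total expected load of the children of a block
-/

set_option autoImplicit false

open Finset PowerSeries Pool.Agent.H67.AT

namespace Pool.Agent.H50.AT

theorem sum_Mm_le {X E Y : Type} [Fintype X] [DecidableEq X] [Fintype E] [Fintype Y]
    [DecidableEq Y] (G : Net X E Y) (x x' : X) : ∑ y, Mm G y x x' ≤ G.P x x' := by
  unfold Mm Net.P
  simp only [Matrix.of_apply]
  rw [sum_comm]
  refine sum_le_sum fun e _ => ?_
  by_cases h : G.src e = x ∧ G.tgt e = x'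
  · rw [if_pos h]
    have h1 : ∀ y, (if G.src e = x ∧ G.tgt e = x' ∧ G.lt e = some y then G.wt e else 0) =
        if G.lt e = some y then G.wt e else 0 := by
      intro y
      simp only [h.1, h.2, true_and]
    simp only [h1]
    cases hl : G.lt e with
    | none =>
      simp only [reduceCtorEq, if_false, sum_const_zero]
      exact G.nonneg e
    | some y0 =>
      simp only [Option.some.injEq]
      rw [sum_ite_eq univ y0 fun _ => G.wt e, if_pos (mem_univ y0)]
  · rw [if_neg h]
    refine le_of_eq (sum_eq_zero fun y _ => ?_)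
    rw [if_neg]
    intro h2
    exact h ⟨h2.1, h2.2.1⟩

theorem pf_RTG (hMU1 : T_MU1) (hRTU : T_RTU) : T_RTG := by
  have _ := hRTU
  intro X E Y _ _ _ _ _ _ G k L g β good hk hg hβ hG l hl x x'
  have hk' : (1 : ℝ) ≤ k := by exact_mod_cast hk
  have hg0 : 0 ≤ g := by linarith
  have hkg : 1 ≤ (k : ℝ) * g := by nlinarith
  cases l with
  | zero =>
    refine le_trans ?_ hkg
    change ∑ y, uses G.P (Mm G) 1 x x' y ≤ 1
    have h1 : ∀ y, uses G.P (Mm G) 1 x x' y = Mm G y x x' / G.P x x' := by
      intro y
      unfold uses usk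
      simp
    simp only [h1]
    rw [← sum_div]
    exact div_le_one_of_le₀ (sum_Mm_le G x x') (P_nn G x x')
  | succ l =>
    have hm : ∀ a b, ∑ y, rho G k good β l a b y ≤ g := by
      intro a b
      by_cases hab : good l a b
      · exact hG.mass l (by omega) a b hab
      · have h1 : ∀ y, rho G k good β l a b y = 0 := by
          intro y
          unfold rho
          rw [if_neg]
          intro h
          exact hab h.1
        simp only [h1, sum_const_zero]
        exact hg0
    have hmu : ∑ s : Fin (k + 1) → X, mu G k l x x' s ≤ 1 := by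
      by_cases hp : 0 < (G.P ^ k ^ (l + 1)) x x'
      · exact (hMU1 X E Y G k l x x' hp).1.le
      · have h0 : (G.P ^ k ^ (l + 1)) x x' = 0 :=
          le_antisymm (not_lt.1 hp) (pow_nn (P_nn G) _ x x')
        have h1 : ∀ s : Fin (k + 1) → X, mu G k l x x' s = 0 := by
          intro s
          unfold mu
          rw [h0, div_zero, ite_self]
        simp only [h1, sum_const_zero]
        exact zero_le_one
    change ∑ y, ∑ s : Fin (k + 1) → X, mu G k l x x' s *
      ∑ i : Fin k, rho G k good β l (s i.castSucc) (s i.succ) y ≤ k * g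
    rw [sum_comm]
    calc ∑ s : Fin (k + 1) → X, ∑ y, mu G k l x x' s *
          ∑ i : Fin k, rho G k good β l (s i.castSucc) (s i.succ) y
        ≤ ∑ s : Fin (k + 1) → X, mu G k l x x' s * (k * g) := by
          refine sum_le_sum fun s _ => ?_
          rw [← mul_sum]
          refine mul_le_mul_of_nonneg_left ?_ (mu_nn G k l x x' s)
          rw [sum_comm]
          calc ∑ i : Fin k, ∑ y, rho G k good β l (s i.castSucc) (s i.succ) y
              ≤ ∑ _i : Fin k, g := sum_le_sum fun i _ => hm _ _
            _ = k * g := by simp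
      _ = (∑ s : Fin (k + 1) → X, mu G k l x x' s) * (k * g) := by rw [sum_mul]
      _ ≤ 1 * (k * g) := mul_le_mul_of_nonneg_right hmu (by linarith)
      _ = k * g := one_mul _

end Pool.Agent.H50.AT
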